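import Mathlib

set_option autoImplicit false

namespace Pool.Agent.Results.MP_3f8e47_nt.ZeroIsEven

/-- The 3-periodic sequence `2, 6, 0, 2, 6, 0, ...`. -/
def b (n : ℕ) : ℤ := if n % 3 = 1 then 2 else if n % 3 = 2 then 6 else 0

theorem b_even (n : ℕ) : b n % 2 = 0 := by
  unfold b
  split_ifs <;> norm_num

theorem parity (a : ℕ → ℤ)
    (ha : ∀ n : ℕ, 2 ≤ n → a n = a (n - 1) - ((Int.gcd (a (n - 1)) ((n : ℤ) + b n)) : ℤ)) :
    ∀ n : ℕ, 2 ≤ n → a n % 2 = (n : ℤ) % 2 := by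
  intro n hn
  induction n, hn using Nat.le_induction with
  | base =>
    rw [ha 2 le_rfl]
    have e : 2 - 1 = 1 := rfl
    rw [e]
    have hb : ((2 : ℕ) : ℤ) + b 2 = 8 := by unfold b; norm_num
    rw [hb]
    set g := Int.gcd (a 1) 8 with hg
    have g1 : ((g : ℕ) : ℤ) ∣ a 1 := Int.gcd_dvd_left _ _
    rcases (show a 1 % 2 = 0 ∨ a 1 % 2 = 1 by omega) with h | h
    · have h2 : (2 : ℤ) ∣ (g : ℤ) := Int.dvd_coe_gcd (by omega) (by norm_num)
      omega
    · have hodd : ((g : ℕ) : ℤ) % 2 = 1 := by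
        by_contra hcon
        have h2 : ((g : ℕ) : ℤ) % 2 = 0 := by omega
        obtain ⟨c, hc⟩ := g1
        have h3 : a 1 % 2 = 0 := by
          rw [hc, Int.mul_emod, h2]; simp
        omega
      omega
  | succ n hn ih =>
    rw [ha (n + 1) (by omega)]
    have e : n + 1 - 1 = n := by omega
    rw [e]
    have hb := b_even (n + 1)
    set g := Int.gcd (a n) (((n + 1 : ℕ) : ℤ) + b (n + 1)) with hg
    have g1 : ((g : ℕ) : ℤ) ∣ a n := Int.gcd_dvd_left _ _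
    have g2 : ((g : ℕ) : ℤ) ∣ ((n + 1 : ℕ) : ℤ) + b (n + 1) := Int.gcd_dvd_right _ _
    have hodd : ((g : ℕ) : ℤ) % 2 = 1 := by
      by_contra hcon
      have h2 : ((g : ℕ) : ℤ) % 2 = 0 := by omega
      rcases Nat.even_or_odd n with h | h
      · have h' := Nat.even_iff.1 h
        obtain ⟨c, hc⟩ := g2
        have h3 : (((n + 1 : ℕ) : ℤ) + b (n + 1)) % 2 = 0 := by
          rw [hc, Int.mul_emod, h2]; simp
        have h4 : ((n + 1 : ℕ) : ℤ) % 2 = 1 := by push_cast; omega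
        omega
      · have h' := Nat.odd_iff.1 h
        obtain ⟨c, hc⟩ := g1
        have h3 : a n % 2 = 0 := by
          rw [hc, Int.mul_emod, h2]; simp
        omega
    push_cast
    omega

/-- For every `N ≥ 7` every zero `f` of `a_N` is even, so `f+1`, `f+3` and `f+7` are odd. -/
theorem result :
    ∀ N : ℕ, 7 ≤ N → ∀ a : ℕ → ℤ, a 1 = (N : ℤ) - 6 →
      (∀ n : ℕ, 2 ≤ n → a n = a (n - 1) - ((Int.gcd (a (n - 1)) ((n : ℤ) + b n)) : ℤ)) →
      ∀ f : ℕ, 1 ≤ f → a f = 0 → Odd (f + 1) ∧ Odd (f + 3) ∧ Odd (f + 7) := by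
  intro N hN a ha1 ha f hf h0
  have hf2 : 2 ≤ f := by
    rcases (show f = 1 ∨ 2 ≤ f by omega) with h | h
    · subst h
      rw [ha1] at h0
      have : (7 : ℤ) ≤ N := by exact_mod_cast hN
      omega
    · exact h
  have h1 := parity a ha f hf2
  rw [h0] at h1
  rw [Nat.odd_iff, Nat.odd_iff, Nat.odd_iff]
  omega

end Pool.Agent.Results.MP_3f8e47_nt.ZeroIsEven
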